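import Pool.Agent.helper94.PL.Spec

set_option autoImplicit false

open Complex Metric Set Filter Topology MeasureTheory MPS
open Pool.Agent.helper16.Multibrot

noncomputable section

namespace PLY

theorem SCV_RH_open : IsOpen RH := isOpen_lt continuous_const Complex.continuous_re

theorem SCV_RH_conv : Convex ℝ RH := convex_halfSpace_re_gt 0

theorem SCV_re (Λ : ℝ) (s : ℂ) (j : ℕ) : (s / (Λ : ℂ) ^ j).re = s.re / Λ ^ j := by
  rw [← Complex.ofReal_pow, Complex.div_ofReal_re]

theorem SCV (hG : BGR_stmt) (hR : RFE_stmt) (hM : MBD_stmt) (hT : V3.TMO_stmt) : SCV_stmt := by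
  intro n c E θ Λ z hn hc hE hΛ hlim C hC hCc ε hε
  by_contra hcon
  rw [Filter.not_eventually] at hcon
  have hΛ0 : 0 < Λ := by linarith
  have hc2 := (hM n c hn hc).1
  have hdiff := (hR n c E hn hc hE).1 θ
  have hbd := hG n c E hn hc2 hE
  set P : Set ℕ := {j | ¬ ∀ s ∈ C, ‖ry E θ (s / (Λ : ℂ) ^ j) - z‖ < ε} with hP
  have hne : (atTop ⊓ 𝓟 P : Filter ℕ).NeBot := Filter.frequently_mem_iff_neBot.1 hcon
  set U : Ultrafilter ℕ := Ultrafilter.of (atTop ⊓ 𝓟 P) with hU
  have hUle : (U : Filter ℕ) ≤ atTop ⊓ 𝓟 P := Ultrafilter.of_le _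
  have hUtop : (U : Filter ℕ) ≤ atTop := hUle.trans inf_le_left
  have hUP : ∀ᶠ j in (U : Filter ℕ), j ∈ P :=
    (hUle.trans inf_le_right) (mem_principal_self P)
  have hmaps : ∀ (j : ℕ) (s : ℂ), s ∈ RH → s / (Λ : ℂ) ^ j ∈ RH := by
    intro j s hs
    change 0 < (s / (Λ : ℂ) ^ j).re
    rw [SCV_re]
    exact div_pos hs (by positivity)
  obtain ⟨F, hF, hconv⟩ := hT U (fun j s => ry E θ (s / (Λ : ℂ) ^ j)) RH SCV_RH_open (by
    intro x hx
    have hx' : 0 < x.re := hx
    have hball : ball x x.re ⊆ RH := by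
      intro y hy
      have h1 : |(y - x).re| ≤ ‖y - x‖ := Complex.abs_re_le_norm _
      have h2 : ‖y - x‖ < x.re := by rwa [mem_ball, dist_eq_norm] at hy
      rw [Complex.sub_re] at h1
      change 0 < y.re
      have := abs_le.1 h1
      linarith [this.1]
    refine ⟨x.re, hx', 4 * Real.exp (2 * x.re), Eventually.of_forall fun j => ⟨?_, ?_⟩⟩
    · refine hdiff.comp ?_ (fun s hs => hmaps j s (hball hs))
      exact (differentiable_id.div_const _).differentiableOn
    · intro y hy
      have hyR := hball hy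
      have h1 : |(y - x).re| ≤ ‖y - x‖ := Complex.abs_re_le_norm _
      have h2 : ‖y - x‖ < x.re := by rwa [mem_ball, dist_eq_norm] at hy
      rw [Complex.sub_re] at h1
      have h3 : y.re ≤ 2 * x.re := by linarith [(abs_le.1 h1).2]
      have hy0 : 0 < y.re := hyR
      have hn1 : ‖Complex.exp (y / (Λ : ℂ) ^ j + 2 * Real.pi * θ * I)‖ = Real.exp (y.re / Λ ^ j) := by
        rw [Complex.norm_exp, Complex.add_re, SCV_re]
        congr 1
        have : (2 * (Real.pi : ℂ) * θ * I).re = 0 := by simp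
        rw [this, add_zero]
      have h4 : 1 < ‖Complex.exp (y / (Λ : ℂ) ^ j + 2 * Real.pi * θ * I)‖ := by
        rw [hn1]; exact Real.one_lt_exp_iff.2 (by positivity)
      have h5 := hbd _ h4
      rw [hn1] at h5
      refine h5.trans ?_
      have h6 : y.re / Λ ^ j ≤ 2 * x.re :=
        (div_le_self hy0.le (one_le_pow₀ hΛ.le)).trans h3
      have := Real.exp_le_exp.2 h6
      linarith)
  have hFt : ∀ t : ℝ, 0 < t → F t = z := by
    intro t ht
    have hmem : (t : ℂ) ∈ RH := by change 0 < ((t : ℂ)).re; simpa using ht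
    have h1 := hconv.tendsto_at hmem
    have h2 : Tendsto (fun j : ℕ => t / Λ ^ j) atTop (𝓝[>] 0) := by
      rw [tendsto_nhdsWithin_iff]
      refine ⟨?_, Eventually.of_forall fun j => ?_⟩
      · exact tendsto_const_nhds.div_atTop (tendsto_pow_atTop_atTop_of_one_lt hΛ)
      · exact div_pos ht (by positivity)
    have h3 : Tendsto (fun j : ℕ => ry E θ ((t : ℂ) / (Λ : ℂ) ^ j)) U (𝓝 z) := by
      have := (hlim.comp h2).mono_left hUtop
      refine this.congr fun j => ?_
      simp only [Function.comp]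
      congr 1
      push_cast
      rfl
    exact tendsto_nhds_unique h1 h3
  have hFan : AnalyticOnNhd ℂ F RH := hF.analyticOnNhd SCV_RH_open
  have h1mem : (1 : ℂ) ∈ RH := by change 0 < (1 : ℂ).re; simp
  have hfreq : ∃ᶠ x in 𝓝[≠] (1 : ℂ), F x = (fun _ => z) x := by
    have ht : Tendsto (fun k : ℕ => ((1 + 1 / ((k : ℝ) + 1) : ℝ) : ℂ)) atTop (𝓝[≠] 1) := by
      rw [tendsto_nhdsWithin_iff]
      refine ⟨?_, Eventually.of_forall fun k => ?_⟩
      · have h0 : Tendsto (fun k : ℕ => (1 + 1 / ((k : ℝ) + 1) : ℝ)) atTop (𝓝 (1 + 0)) :=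
          tendsto_const_nhds.add tendsto_one_div_add_atTop_nhds_zero_nat
        have h00 := (Complex.continuous_ofReal.tendsto (1 + 0 : ℝ)).comp h0
        simpa [Function.comp_def] using h00
      · intro h
        have h' : ((1 + 1 / ((k : ℝ) + 1) : ℝ) : ℂ) = ((1 : ℝ) : ℂ) := by simpa using h
        have h'' := Complex.ofReal_injective h'
        have : (0 : ℝ) < 1 / ((k : ℝ) + 1) := by positivity
        linarith
    refine ht.frequently (Frequently.of_forall fun k => ?_)
    exact hFt _ (by positivity)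
  have hEq : EqOn F (fun _ => z) RH :=
    hFan.eqOn_of_preconnected_of_frequently_eq analyticOnNhd_const
      SCV_RH_conv.isPreconnected h1mem hfreq
  have hunif := (tendstoLocallyUniformlyOn_iff_forall_isCompact SCV_RH_open).1 hconv C hC hCc
  rw [Metric.tendstoUniformlyOn_iff] at hunif
  obtain ⟨j, hj1, hj2⟩ := ((hunif ε hε).and hUP).exists
  refine hj2 fun s hs => ?_
  have := hj1 s hs
  rw [hEq (hC hs), dist_eq_norm, norm_sub_rev] at this
  exact this

end PLY
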